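import Pool.Agent.Helper25.HV.Defs
import Pool.Agent.Helper57.HL.Fd

/-!
# HV-CV: convolution of the mollifier and the resonator `rr2`
-/

open MeasureTheory Set Filter Topology
open Pool.Agent.Helper57.Zeta Pool.Agent.Helper57.LH Pool.Agent.Helper57.ED
open Pool.Agent.Helper69.HG Pool.Agent.Helper57.HL Pool.Agent.Helper25.HV

namespace Pool.Agent.Helper82.HV

/-- support of the resonator -/
def Rsp (T : ℝ) : Prop := ∀ n : ℕ, rr2 T n ≠ 0 → n ≠ 0 ∧ (n : ℝ) ≤ T ^ (503 / 1008 : ℝ) ∧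
  ∀ p : ℕ, p.Prime → p ∣ n → T ^ (1 / 4032 : ℝ) < (p : ℝ)

/-- coprime supports -/
theorem cop82 {T ε : ℝ} {b : ℕ} {a : ℕ → ℝ} (hr : Rsp T) (h : IsCM T ε b a) (hT : 1 < T) (hε : 0 < ε)
    (hε1 : ε ≤ 1 / 4032) {m n : ℕ} (hm : a m ≠ 0) (hn : rr2 T n ≠ 0) : Nat.Coprime m n := by
  apply Nat.coprime_of_dvd
  intro p hp hpm hpn
  have h1 := (a_le57 h hT hε hm).2.2 p hp hpm
  have h2 := (hr n hn).2.2 p hp hpn
  have h3 : T ^ ε ≤ T ^ (1 / 4032 : ℝ) := Real.rpow_le_rpow_of_exponent_le hT.le hε1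
  linarith

/-- lengths -/
lemma XMR82 {T : ℝ} (hT : 1 < T) : XM2 T * XR2 T ≤ XX2 T := by
  have hT0 : 0 < T := by linarith
  unfold XM2 XR2 XX2
  apply Nat.le_floor
  push_cast
  have h1 : (⌊T ^ (1 / 4032 : ℝ)⌋₊ : ℝ) ≤ T ^ (1 / 4032 : ℝ) := Nat.floor_le (by positivity)
  have h2 : (⌊T ^ (503 / 1008 : ℝ)⌋₊ : ℝ) ≤ T ^ (503 / 1008 : ℝ) := Nat.floor_le (by positivity)
  calc (⌊T ^ (1 / 4032 : ℝ)⌋₊ : ℝ) * (⌊T ^ (503 / 1008 : ℝ)⌋₊ : ℝ) ≤ T ^ (1 / 4032 : ℝ) * T ^ (503 / 1008 : ℝ) :=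
        mul_le_mul h1 h2 (by positivity) (by positivity)
    _ = T ^ (2013 / 4032 : ℝ) := by
        rw [← Real.rpow_add hT0]; norm_num

lemma XM_le82 {T : ℝ} (hT : 1 < T) : XM2 T ≤ XM T :=
  Nat.floor_le_floor (Real.rpow_le_rpow_of_exponent_le hT.le (by norm_num))

/-- a bilinear form does not change when the range is extended beyond the support -/
lemma sum_ext82 {X Y : ℕ} (hXY : X ≤ Y) {a : ℕ → ℝ} (ha : ∀ n, a n ≠ 0 → n ≤ X) (G : ℕ → ℕ → ℝ) :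
    ∑ h ∈ Finset.Icc 1 X, ∑ k ∈ Finset.Icc 1 X, a h * a k * G h k =
      ∑ h ∈ Finset.Icc 1 Y, ∑ k ∈ Finset.Icc 1 Y, a h * a k * G h k := by
  have hs : Finset.Icc 1 X ⊆ Finset.Icc 1 Y := Finset.Icc_subset_Icc le_rfl hXY
  have hz : ∀ n ∈ Finset.Icc 1 Y, n ∉ Finset.Icc 1 X → a n = 0 := by
    intro n hn hn2
    by_contra hne
    exact hn2 (Finset.mem_Icc.2 ⟨(Finset.mem_Icc.1 hn).1, ha n hne⟩)
  rw [← Finset.sum_subset hs (fun h hh hh2 => Finset.sum_eq_zero fun k _ => by rw [hz h hh hh2]; ring)]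
  refine Finset.sum_congr rfl fun h _ => ?_
  exact Finset.sum_subset hs (fun k hk hk2 => by rw [hz k hk hk2]; ring)

section
variable {T ε : ℝ} {b : ℕ} {a : ℕ → ℝ}

lemma a_XM82 (h : IsCM T ε b a) (hT : 1 < T) (hε : 0 < ε) (hε2 : ε * (4 * b + 4) ≤ 1 / 4032) :
    ∀ n, a n ≠ 0 → n ≤ XM2 T := by
  intro n hn
  unfold XM2
  apply Nat.le_floor
  exact (a_le57 h hT hε hn).2.1.trans (Real.rpow_le_rpow_of_exponent_le hT.le hε2)

lemma r_XR82 (hr : Rsp T) : ∀ n, rr2 T n ≠ 0 → n ≤ XR2 T := by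
  intro n hn
  unfold XR2
  apply Nat.le_floor
  exact (hr n hn).2.1

theorem Ql_conv82 (hr : Rsp T) (h : IsCM T ε b a) (hT : 1 < T) (hε : 0 < ε) (hε1 : ε ≤ 1 / 4032)
    (hε2 : ε * (4 * b + 4) ≤ 1 / 4032) (σ : ℝ) :
    Ql (XX2 T) (conv a (rr2 T)) σ = Ql (XM T) a σ * Ql (XR2 T) (rr2 T) σ := by
  have e0 : Ql (XM2 T) a σ = Ql (XM T) a σ := by
    unfold Ql
    exact sum_ext82 (XM_le82 hT) (a_XM82 h hT hε hε2) (fun h k => (Nat.lcm h k : ℝ) ^ (-2 * σ))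
  rw [← e0]
  unfold Ql
  refine bil57 (XMR82 hT) (a_XM82 h hT hε hε2) (r_XR82 hr) (fun h k => (Nat.lcm h k : ℝ) ^ (-2 * σ)) ?_
  intro m m' n n' hm hm' hn hn' am am' rn rn'
  have e := Pool.Agent.HG5.lcm_mul5 (cop82 hr h hT hε hε1 am rn) (cop82 hr h hT hε hε1 am rn')
    (cop82 hr h hT hε hε1 am' rn) (cop82 hr h hT hε hε1 am' rn')
  rw [e]
  push_cast
  exact Real.mul_rpow (by positivity) (by positivity)

theorem Qg_conv82 (hr : Rsp T) (h : IsCM T ε b a) (hT : 1 < T) (hε : 0 < ε) (hε1 : ε ≤ 1 / 4032)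
    (hε2 : ε * (4 * b + 4) ≤ 1 / 4032) (σ : ℝ) :
    Qg (XX2 T) (conv a (rr2 T)) σ = Qg (XM T) a σ * Qg (XR2 T) (rr2 T) σ := by
  have e0 : Qg (XM2 T) a σ = Qg (XM T) a σ := by
    unfold Qg
    exact sum_ext82 (XM_le82 hT) (a_XM82 h hT hε hε2) (fun h k => (Nat.gcd h k : ℝ) ^ (1 - 2 * σ) / Nat.lcm h k)
  rw [← e0]
  unfold Qg
  refine bil57 (XMR82 hT) (a_XM82 h hT hε hε2) (r_XR82 hr)
    (fun h k => (Nat.gcd h k : ℝ) ^ (1 - 2 * σ) / Nat.lcm h k) ?_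
  intro m m' n n' hm hm' hn hn' am am' rn rn'
  rw [Finset.mem_Icc] at hm hm' hn hn'
  have c1 := cop82 hr h hT hε hε1 am rn
  have c2 := cop82 hr h hT hε hε1 am rn'
  have c3 := cop82 hr h hT hε hε1 am' rn
  have c4 := cop82 hr h hT hε hε1 am' rn'
  have e := Pool.Agent.HG5.lcm_mul5 c1 c2 c3 c4
  have e' := gcd_mul57 (by omega) (by omega) (by omega) (by omega) c1 c2 c3 c4
  rw [e, e']
  push_cast
  rw [Real.mul_rpow (by positivity) (by positivity)]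
  exact mul_div_mul_comm _ _ _ _

theorem S1_conv82 {C : ℝ} (hC : ∀ n : ℕ, |rr2 T n| ≤ C) (hr : Rsp T) (h : IsCM T ε b a) (hT : 1 < T) (hε : 0 < ε)
    (hε2 : ε * (4 * b + 4) ≤ 1 / 4032) : S1 (XX2 T) (conv a (rr2 T)) ≤ C * T ^ (2013 / 4032 : ℝ) := by
  have hT0 : 0 < T := by linarith
  have hC0 : 0 ≤ C := (abs_nonneg _).trans (hC 0)
  unfold S1
  have h1 : ∑ h ∈ Finset.Icc 1 (XX2 T), |conv a (rr2 T) h| ≤
      ∑ h ∈ Finset.Icc 1 (XX2 T), conv (fun n => |a n|) (fun n => |rr2 T n|) h * 1 := by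
    refine Finset.sum_le_sum fun h _ => ?_
    rw [mul_one]
    unfold conv
    refine (Finset.abs_sum_le_sum_abs _ _).trans (le_of_eq ?_)
    exact Finset.sum_congr rfl fun d _ => abs_mul _ _
  refine h1.trans ?_
  rw [conv_sum57 (XMR82 hT) (a := fun n => |a n|) (r := fun n => |rr2 T n|)
    (fun n hn => a_XM82 h hT hε hε2 n (abs_ne_zero.1 hn)) (fun n hn => r_XR82 hr n (abs_ne_zero.1 hn)) (fun _ => 1)]
  have h2 : ∑ m ∈ Finset.Icc 1 (XM2 T), ∑ n ∈ Finset.Icc 1 (XR2 T), |a m| * |rr2 T n| * 1 ≤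
      ∑ m ∈ Finset.Icc 1 (XM2 T), ∑ n ∈ Finset.Icc 1 (XR2 T), C := by
    refine Finset.sum_le_sum fun m _ => Finset.sum_le_sum fun n _ => ?_
    rw [mul_one]
    calc |a m| * |rr2 T n| ≤ 1 * C := mul_le_mul (h.bd m) (hC n) (abs_nonneg _) (by norm_num)
      _ = C := one_mul C
  refine h2.trans ?_
  rw [Finset.sum_const, Finset.sum_const, Nat.card_Icc, Nat.card_Icc]
  simp only [add_tsub_cancel_right, nsmul_eq_mul]
  have h3 : (XM2 T : ℝ) ≤ T ^ (1 / 4032 : ℝ) := Nat.floor_le (by positivity)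
  have h4 : (XR2 T : ℝ) ≤ T ^ (503 / 1008 : ℝ) := Nat.floor_le (by positivity)
  calc (XM2 T : ℝ) * ((XR2 T : ℝ) * C) = ((XM2 T : ℝ) * (XR2 T : ℝ)) * C := by ring
    _ ≤ (T ^ (1 / 4032 : ℝ) * T ^ (503 / 1008 : ℝ)) * C := by gcongr
    _ = C * T ^ (2013 / 4032 : ℝ) := by
        rw [← Real.rpow_add hT0, mul_comm]; norm_num

end

end Pool.Agent.Helper82.HV
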