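import Pool.Agent.Helper82.HV.Cv

/-!
# HV-LIM: the limit of the normalised second moments
-/

open MeasureTheory Set Filter Topology
open Pool.Agent.Helper57.Zeta Pool.Agent.Helper57.LH Pool.Agent.Helper57.ED
open Pool.Agent.Helper69.HG Pool.Agent.Helper57.HL Pool.Agent.Helper25.HV

namespace Pool.Agent.Helper82.HV

/-- normalised coefficients -/
noncomputable def cn82 (T ε : ℝ) (a : ℕ → ℝ) (n : ℕ) : ℝ :=
  (1 / Real.sqrt (Real.log T * Vp T ε)) * conv a (rr2 T) n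

lemma Phi_eq82 (x : ℝ) : Phi2 x = (AL x - Real.exp (-(2 * x)) * AG x) / (2 * x) := rfl

/-- the error terms tend to zero -/
lemma err82 {x κ c1 Cr ε P : ℝ} (hx : 0 < x) (hκ : 0 < κ) {δ : ℝ} (hδ : 0 < δ) :
    ∀ᶠ T : ℝ in atTop, 1 < T ∧ 1 ≤ κ * T ∧ 1 ≤ Real.log T ∧ x / Real.log T ≤ 1 / 4 ∧ P / Real.log T ≤ δ ∧
      |(κ * T) ^ (-(2 * x / Real.log T)) - Real.exp (-(2 * x))| ≤ δ ∧
      Cr ^ 2 * T ^ (4026 / 4032 : ℝ) / (c1 / ε) * (15 * (1 + 2 / κ) / ((κ * T) * (2 * x / Real.log T))) ≤ δ := by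
  have h1 : ∀ᶠ T : ℝ in atTop, 1 < T := eventually_gt_atTop 1
  have h2 : ∀ᶠ T : ℝ in atTop, 1 ≤ κ * T := (tendsto_id.const_mul_atTop hκ).eventually_ge_atTop 1
  have h3 : ∀ᶠ T : ℝ in atTop, 1 ≤ Real.log T := Real.tendsto_log_atTop.eventually_ge_atTop 1
  have h4 : ∀ᶠ T : ℝ in atTop, x / Real.log T ≤ 1 / 4 := by
    have : Tendsto (fun T : ℝ => x / Real.log T) atTop (𝓝 0) := Real.tendsto_log_atTop.const_div_atTop x
    exact this.eventually_le_const (by norm_num)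
  have h5 : ∀ᶠ T : ℝ in atTop, P / Real.log T ≤ δ := by
    have : Tendsto (fun T : ℝ => P / Real.log T) atTop (𝓝 0) := Real.tendsto_log_atTop.const_div_atTop P
    exact this.eventually_le_const hδ
  have h6 : ∀ᶠ T : ℝ in atTop, |(κ * T) ^ (-(2 * x / Real.log T)) - Real.exp (-(2 * x))| ≤ δ := by
    have e1 : Tendsto (fun T : ℝ => Real.exp (-(2 * x) - 2 * x * Real.log κ / Real.log T)) atTop (𝓝 (Real.exp (-(2 * x) - 0))) := by
      refine (Real.continuous_exp.tendsto _).comp (tendsto_const_nhds.sub ?_)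
      exact Real.tendsto_log_atTop.const_div_atTop (2 * x * Real.log κ)
    rw [sub_zero] at e1
    have e2 : ∀ᶠ T : ℝ in atTop, |Real.exp (-(2 * x) - 2 * x * Real.log κ / Real.log T) - Real.exp (-(2 * x))| < δ := by
      have := e1.sub_const (Real.exp (-(2 * x)))
      rw [sub_self] at this
      have h := this.abs
      rw [abs_zero] at h
      exact h.eventually_lt_const hδ
    filter_upwards [e2, h1, h3] with T hT hT1 hT3
    have hT0 : 0 < T := by linarith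
    have hL : 0 < Real.log T := by linarith
    have : (κ * T) ^ (-(2 * x / Real.log T)) = Real.exp (-(2 * x) - 2 * x * Real.log κ / Real.log T) := by
      rw [Real.rpow_def_of_pos (by positivity), Real.log_mul hκ.ne' hT0.ne']
      congr 1
      field_simp
      ring
    rw [this]
    exact hT.le
  have h7 : ∀ᶠ T : ℝ in atTop, Cr ^ 2 * T ^ (4026 / 4032 : ℝ) / (c1 / ε) * (15 * (1 + 2 / κ) / ((κ * T) * (2 * x / Real.log T))) ≤ δ := by
    have e1 : Tendsto (fun T : ℝ => Real.log T / T ^ (6 / 4032 : ℝ)) atTop (𝓝 0) :=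
      (isLittleO_log_rpow_atTop (by norm_num : (0:ℝ) < 6 / 4032)).tendsto_div_nhds_zero
    have e2 : Tendsto (fun T : ℝ => (Cr ^ 2 / (c1 / ε) * (15 * (1 + 2 / κ) / (κ * (2 * x)))) * (Real.log T / T ^ (6 / 4032 : ℝ)))
        atTop (𝓝 0) := by
      have := e1.const_mul (Cr ^ 2 / (c1 / ε) * (15 * (1 + 2 / κ) / (κ * (2 * x))))
      rwa [mul_zero] at this
    filter_upwards [e2.eventually_le_const hδ, h1, h3] with T hT hT1 hT3
    have hT0 : 0 < T := by linarith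
    have hL : 0 < Real.log T := by linarith
    refine le_trans (le_of_eq ?_) hT
    have e3 : T = T ^ (4026 / 4032 : ℝ) * T ^ (6 / 4032 : ℝ) := by
      rw [← Real.rpow_add hT0]; norm_num
    have e4 : 0 < T ^ (4026 / 4032 : ℝ) := Real.rpow_pos_of_pos hT0 _
    have e5 : 0 < T ^ (6 / 4032 : ℝ) := Real.rpow_pos_of_pos hT0 _
    generalize hp : T ^ (4026 / 4032 : ℝ) = p at *
    generalize hq : T ^ (6 / 4032 : ℝ) = q at *
    generalize Real.log T = L at *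
    generalize Cr ^ 2 = R at *
    generalize c1 / ε = w at *
    generalize 15 * (1 + 2 / κ) = v at *
    rw [e3]
    field_simp
  filter_upwards [h1, h2, h3, h4, h5, h6, h7] with T a1 a2 a3 a4 a5 a6 a7
  exact ⟨a1, a2, a3, a4, a5, a6, a7⟩

/-- one second moment -/
theorem fs_lim82 (hCS : CS) (hSV : SV) (hRS : RS2) (hsp : ∀ T : ℝ, 1 < T → Rsp T)
    (hbd : ∃ C : ℝ, 1 ≤ C ∧ ∀ T : ℝ, 1 < T → ∀ n : ℕ, |rr2 T n| ≤ C) {x κ δ : ℝ} (hx : 0 < x) (hκ : 0 < κ) (hδ : 0 < δ) :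
    ∃ b₀ : ℕ, ∀ b ≥ b₀, ∃ ε₀ : ℝ, 0 < ε₀ ∧ ∀ ε : ℝ, 0 < ε → ε ≤ ε₀ → ∃ T₀ : ℝ, ∀ T : ℝ, T₀ ≤ T →
      ∀ a : ℕ → ℝ, IsCM T ε b a → ∀ τ : ℝ, |τ| ≤ 2 * T →
        |Fs (XX2 T) (cn82 T ε a) (κ * T) τ (1 / 2 + x / Real.log T) - Phi2 x| ≤ δ := by
  obtain ⟨-, c1, C1, hc1, hC1, hcs⟩ := hCS
  obtain ⟨Cr, hCr1, hCr⟩ := hbd
  obtain ⟨MA, hMA⟩ : ∃ M : ℝ, M = |AL x| + 1 := ⟨_, rfl⟩
  obtain ⟨MB, hMB⟩ : ∃ M : ℝ, M = |AG x| + 1 := ⟨_, rfl⟩
  have hMA0 : 1 ≤ MA := by rw [hMA]; linarith [abs_nonneg (AL x)]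
  have hMB0 : 1 ≤ MB := by rw [hMB]; linarith [abs_nonneg (AG x)]
  obtain ⟨η, hη⟩ : ∃ η : ℝ, η = min 1 (δ * x / (4 * (MA + MB))) := ⟨_, rfl⟩
  have hη0 : 0 < η := by rw [hη]; positivity
  have hη1 : η ≤ 1 := by rw [hη]; exact min_le_left _ _
  have hη2 : η * (MA + MB) ≤ δ * x / 4 := by
    have : η ≤ δ * x / (4 * (MA + MB)) := by rw [hη]; exact min_le_right _ _
    rw [le_div_iff₀ (by positivity)] at this
    linarith
  obtain ⟨δ1, hδ1⟩ : ∃ δ1 : ℝ, δ1 = min 1 (min (δ * x / 8) (δ / 8 * x / (MB + 1))) := ⟨_, rfl⟩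
  have hδ10 : 0 < δ1 := by rw [hδ1]; positivity
  have hδ11 : δ1 ≤ 1 := by rw [hδ1]; exact min_le_left _ _
  have hδ12 : δ1 ≤ δ * x / 8 := by rw [hδ1]; exact (min_le_right _ _).trans (min_le_left _ _)
  have hδ13 : δ1 * (MB + 1) ≤ δ / 8 * x := by
    have : δ1 ≤ δ / 8 * x / (MB + 1) := by rw [hδ1]; exact (min_le_right _ _).trans (min_le_right _ _)
    rwa [le_div_iff₀ (by positivity)] at this
  obtain ⟨b₀, hb₀⟩ := hSV η x hη0 hx
  refine ⟨b₀, fun b hb => ?_⟩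
  obtain ⟨ε₀, hε₀, hsv⟩ := hb₀ b hb
  refine ⟨min ε₀ (min 1 (min (1 / 4032) (1 / 4032 / (4 * b + 4)))), by positivity, fun ε hε hεε => ?_⟩
  have hεa : ε ≤ ε₀ := hεε.trans (min_le_left _ _)
  have hεb := hεε.trans (min_le_right _ _)
  have hε1 : ε ≤ 1 := hεb.trans (min_le_left _ _)
  have hεc := hεb.trans (min_le_right _ _)
  have hε4 : ε ≤ 1 / 4032 := hεc.trans (min_le_left _ _)
  have hε5 : ε * (4 * b + 4) ≤ 1 / 4032 := by
    have := hεc.trans (min_le_right _ _)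
    rwa [le_div_iff₀ (by positivity)] at this
  obtain ⟨T₁, hT₁⟩ := hcs ε hε hε1
  obtain ⟨T₂, hT₂⟩ := hsv ε hε hεa
  obtain ⟨rs1, rs2⟩ := hRS x hx
  have ev1 : ∀ᶠ T : ℝ in atTop, |Ql (XR2 T) (rr2 T) (1 / 2 + x / Real.log T) - AL x| ≤ δ1 := by
    have h : Tendsto (fun T : ℝ => |Ql (XR2 T) (rr2 T) (1 / 2 + x / Real.log T) - AL x|) atTop (𝓝 |AL x - AL x|) :=
      (Tendsto.sub_const (b := AL x) rs1).abs
    rw [sub_self, abs_zero] at h
    exact h.eventually_le_const hδ10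
  have ev2 : ∀ᶠ T : ℝ in atTop, |Qg (XR2 T) (rr2 T) (1 / 2 + x / Real.log T) - AG x| ≤ δ1 := by
    have h : Tendsto (fun T : ℝ => |Qg (XR2 T) (rr2 T) (1 / 2 + x / Real.log T) - AG x|) atTop (𝓝 |AG x - AG x|) :=
      (Tendsto.sub_const (b := AG x) rs2).abs
    rw [sub_self, abs_zero] at h
    exact h.eventually_le_const hδ10
  obtain ⟨P, hP⟩ : ∃ P : ℝ, P = 16 * MA + 16 * (13 * (1 + 2 / κ)) * MB := ⟨_, rfl⟩
  have hP0 : 0 ≤ P := by rw [hP]; positivity
  have ev3 := err82 (x := x) (κ := κ) (c1 := c1) (Cr := Cr) (ε := ε) (P := P) hx hκ (δ := min δ1 (δ / 4)) (by positivity)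
  obtain ⟨T₃, hT₃⟩ := eventually_atTop.1 (ev1.and (ev2.and ev3))
  refine ⟨max T₁ (max T₂ T₃), fun T hT a ha τ hτ => ?_⟩
  have b1 := hT₁ T ((le_max_left _ _).trans hT)
  have hT' := (le_max_right _ _).trans hT
  obtain ⟨r1, r2, t1, t2, t3, t4, t5, t6, t7⟩ := hT₃ T ((le_max_right _ _).trans hT')
  have hT0 : 0 < T := by linarith
  have hL0 : 0 < Real.log T := by linarith
  have hxL0 : 0 < x / Real.log T := by positivity
  have sv := hT₂ T ((le_max_left _ _).trans hT') a ha (1 / 2 + x / Real.log T) (by linarith) le_rfl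
  obtain ⟨N, hN⟩ : ∃ N : ℝ, N = Real.log T * Vp T ε := ⟨_, rfl⟩
  rw [← hN] at b1
  have hcε : 0 < c1 / ε := by positivity
  have hN0 : 0 < N := lt_of_lt_of_le hcε b1.1
  have hV0 : 0 < Vp T ε := by
    rw [hN] at hN0
    exact (mul_pos_iff_of_pos_left hL0).1 hN0
  obtain ⟨c, hc0, hc2, hc3⟩ := hl_fs (l := κ * T) (τ := τ) (σ := 1 / 2 + x / Real.log T) t2 (by linarith) (by linarith)
  have hτκ : |τ| / (κ * T) ≤ 2 / κ := by
    rw [div_le_div_iff₀ (by positivity) hκ]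
    have := mul_le_mul_of_nonneg_right hτ hκ.le
    linarith
  have e2s : 2 * (1 / 2 + x / Real.log T) - 1 = 2 * x / Real.log T := by ring
  have e2t : 1 - 2 * (1 / 2 + x / Real.log T) = -(2 * x / Real.log T) := by ring
  have hF := hc3 (XX2 T) (conv a (rr2 T))
  rw [e2s, e2t] at hc2
  rw [e2s] at hF
  have hQ1 : Q1 (XX2 T) (conv a (rr2 T)) (1 / 2 + x / Real.log T) =
      Ql (XM T) a (1 / 2 + x / Real.log T) * Ql (XR2 T) (rr2 T) (1 / 2 + x / Real.log T) :=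
    Ql_conv82 (hsp T t1) ha t1 hε hε4 hε5 _
  have hQ2 : Q2 (XX2 T) (conv a (rr2 T)) (1 / 2 + x / Real.log T) =
      Qg (XM T) a (1 / 2 + x / Real.log T) * Qg (XR2 T) (rr2 T) (1 / 2 + x / Real.log T) :=
    Qg_conv82 (hsp T t1) ha t1 hε hε4 hε5 _
  rw [hQ1, hQ2] at hF
  have hz := zs_c (σ := 1 / 2 + x / Real.log T) (by linarith)
  rw [e2s] at hz
  have hS1 := S1_conv82 (hCr T t1) (hsp T t1) ha t1 hε hε5
  have hFs : Fs (XX2 T) (cn82 T ε a) (κ * T) τ (1 / 2 + x / Real.log T) =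
      1 / N * Fs (XX2 T) (conv a (rr2 T)) (κ * T) τ (1 / 2 + x / Real.log T) := by
    have : cn82 T ε a = fun n => (1 / Real.sqrt N) * conv a (rr2 T) n := by
      funext n; unfold cn82; rw [hN]
    rw [this, Fs_smul57, div_pow, Real.sq_sqrt hN0.le, one_pow]
  rw [hFs]
  generalize Fs (XX2 T) (conv a (rr2 T)) (κ * T) τ (1 / 2 + x / Real.log T) = F at *
  have hS0 := S1_nonneg57 (XX2 T) (conv a (rr2 T))
  generalize S1 (XX2 T) (conv a (rr2 T)) = S at *
  generalize Ql (XM T) a (1 / 2 + x / Real.log T) = U at *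
  generalize Qg (XM T) a (1 / 2 + x / Real.log T) = W at *
  generalize Ql (XR2 T) (rr2 T) (1 / 2 + x / Real.log T) = A at *
  generalize Qg (XR2 T) (rr2 T) (1 / 2 + x / Real.log T) = B at *
  generalize zs (1 / 2 + x / Real.log T) = Z at *
  generalize hLL : Real.log T = L at *
  generalize Vp T ε = V at *
  -- ratios
  have hu : |U / V - 1| ≤ η := by
    have : U / V - 1 = (U - V) / V := by field_simp
    rw [this, abs_div, abs_of_pos hV0, div_le_iff₀ hV0]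
    exact sv.1
  have hv : |W / V - 1| ≤ η := by
    have : W / V - 1 = (W - V) / V := by field_simp
    rw [this, abs_div, abs_of_pos hV0, div_le_iff₀ hV0]
    exact sv.2
  have hzL : |Z / L - 1 / (2 * x)| ≤ 1 / L := by
    have h1 : Z / L - 1 / (2 * x) = (Z - 1 / (2 * x / L)) / L := by field_simp
    rw [h1, abs_div, abs_of_pos hL0]
    refine div_le_div_of_nonneg_right ?_ hL0.le
    rw [abs_of_nonneg (by linarith [hz.1])]
    linarith [hz.2]
  obtain ⟨D, hD⟩ : ∃ D : ℝ, D = 13 * (1 + 2 / κ) := ⟨_, rfl⟩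
  have hcL : |c / L - Real.exp (-(2 * x)) / (2 * x)| ≤ D / L + δ1 / (2 * x) := by
    have h1 : c / L - Real.exp (-(2 * x)) / (2 * x) =
        (c - (κ * T) ^ (-(2 * x / L)) / (2 * x / L)) / L + ((κ * T) ^ (-(2 * x / L)) - Real.exp (-(2 * x))) / (2 * x) := by
      field_simp
      ring
    rw [h1]
    refine (abs_add_le _ _).trans (add_le_add ?_ ?_)
    · rw [abs_div, abs_of_pos hL0]
      refine div_le_div_of_nonneg_right (hc2.trans ?_) hL0.le
      rw [hD]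
      linarith
    · rw [abs_div, abs_of_pos (by positivity : 0 < 2 * x)]
      refine div_le_div_of_nonneg_right (t6.trans (min_le_left _ _)) (by positivity)
  have hAM : |A| ≤ MA := by
    have : A = (A - AL x) + AL x := by ring
    rw [this, hMA]
    refine (abs_add_le _ _).trans ?_
    linarith
  have hBM : |B| ≤ MB := by
    have : B = (B - AG x) + AG x := by ring
    rw [this, hMB]
    refine (abs_add_le _ _).trans ?_
    linarith
  have hE1 : Real.exp (-(2 * x)) ≤ 1 := by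
    rw [Real.exp_le_one_iff]; linarith
  have hPL : P / L ≤ δ / 4 := t5.trans (min_le_right _ _)
  have hmain := lim57 (δ := 3 / 4 * δ) hx (Real.exp_pos (-(2 * x))).le hE1 hzL hcL hη1 hu hv r1 r2 hAM hBM (by
    have h1 : 2 * (1 / L) * MA + 2 * (D / L + δ1 / (2 * x)) * MB + (η * (MA + MB) + 2 * δ1) / (2 * x) =
        (2 * MA + 2 * D * MB) / L + (2 * δ1 * MB + η * (MA + MB) + 2 * δ1) / (2 * x) := by
      field_simp
      ring
    rw [h1]
    have h2 : (2 * MA + 2 * D * MB) / L ≤ δ / 4 := by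
      refine le_trans ?_ hPL
      refine div_le_div_of_nonneg_right ?_ hL0.le
      rw [hP, ← hD]
      have hD0 : 0 ≤ D := by rw [hD]; positivity
      have hDM : 0 ≤ D * MB := mul_nonneg hD0 (by linarith)
      linarith
    have h3 : (2 * δ1 * MB + η * (MA + MB) + 2 * δ1) / (2 * x) ≤ δ / 2 := by
      rw [div_le_iff₀ (by positivity)]
      have hδx : 0 < δ * x := mul_pos hδ hx
      linarith
    linarith)
  rw [← Phi_eq82] at hmain
  -- error of the moment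
  have hErr : |1 / N * F - (Z / L * (U / V * A) - c / L * (W / V * B))| ≤ δ / 4 := by
    have h1 : Z / L * (U / V * A) - c / L * (W / V * B) = 1 / N * (Z * (U * A) - c * (W * B)) := by
      rw [hN]
      field_simp
    rw [h1, ← mul_sub, abs_mul, abs_of_pos (by positivity : 0 < 1 / N)]
    have h2 : 1 / N * |F - (Z * (U * A) - c * (W * B))| ≤
        1 / N * (S ^ 2 * (15 * (1 + |τ| / (κ * T)) / (κ * T * (2 * x / L)))) :=
      mul_le_mul_of_nonneg_left hF (by positivity)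
    refine h2.trans ?_
    refine le_trans ?_ (t7.trans (min_le_right _ _))
    have h3 : S ^ 2 ≤ Cr ^ 2 * T ^ (4026 / 4032 : ℝ) := by
      have h4 := pow_le_pow_left₀ hS0 hS1 2
      refine h4.trans (le_of_eq ?_)
      rw [mul_pow, ← Real.rpow_natCast (T ^ (2013 / 4032 : ℝ)), ← Real.rpow_mul hT0.le]
      norm_num
    have hden : 0 < κ * T * (2 * x / L) := by positivity
    have h5 : 15 * (1 + |τ| / (κ * T)) / (κ * T * (2 * x / L)) ≤ 15 * (1 + 2 / κ) / (κ * T * (2 * x / L)) := by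
      refine div_le_div_of_nonneg_right ?_ hden.le
      linarith
    have h6 : 1 / N ≤ 1 / (c1 / ε) := one_div_le_one_div_of_le hcε b1.1
    have h7 : 0 ≤ 15 * (1 + |τ| / (κ * T)) / (κ * T * (2 * x / L)) := by positivity
    calc 1 / N * (S ^ 2 * (15 * (1 + |τ| / (κ * T)) / (κ * T * (2 * x / L)))) ≤
          1 / (c1 / ε) * ((Cr ^ 2 * T ^ (4026 / 4032 : ℝ)) * (15 * (1 + 2 / κ) / (κ * T * (2 * x / L)))) := by
            refine mul_le_mul h6 (mul_le_mul h3 h5 h7 (by positivity)) (mul_nonneg (sq_nonneg _) h7) (by positivity)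
      _ = _ := by ring
  calc |1 / N * F - Phi2 x| = |(1 / N * F - (Z / L * (U / V * A) - c / L * (W / V * B))) +
        ((Z / L * (U / V * A) - c / L * (W / V * B)) - Phi2 x)| := by congr 1; ring
    _ ≤ _ := abs_add_le _ _
    _ ≤ δ / 4 + 3 / 4 * δ := add_le_add hErr hmain
    _ = δ := by ring

end Pool.Agent.Helper82.HV
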