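import Pool.Agent.Helper25.HV.Defs
import Pool.Agent.Helper57.HL.Fl
import Pool.Agent.Helper57.HL.Fb

/-!
# HV-NU: the arithmetic of the numbers
-/

open MeasureTheory Set Filter Topology
open Pool.Agent.Helper57.Zeta Pool.Agent.Helper57.LH Pool.Agent.Helper57.ED
open Pool.Agent.Helper69.HG Pool.Agent.Helper57.HL Pool.Agent.Helper25.HV

namespace Pool.Agent.Helper82.HV

/-- arithmetic of the numbers -/
lemma numa82 {m₀ m₁ m₂ C x f1 f2 f3 : ℝ} (hC : 0 ≤ C) (hx : 0 < x) (hx1 : x ≤ 1)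
    (h1 : |f1 - (m₀ - 2 * x * m₁ + 2 * x ^ 2 * m₂)| ≤ C * x ^ 3)
    (h2 : |f2 - (m₀ - 2 * (2 * x) * m₁ + 2 * (2 * x) ^ 2 * m₂)| ≤ C * (2 * x) ^ 3)
    (h3 : |f3 - (m₀ - 2 * (3 * x) * m₁ + 2 * (3 * x) ^ 2 * m₂)| ≤ C * (3 * x) ^ 3) :
    (97 / 100) ^ 2 * f1 - 2 * (97 / 100) * ((f1 - f2) / (2 * x)) + (f1 - 2 * f2 + f3) / (4 * x ^ 2) ≤
      ((97 / 100) ^ 2 * m₀ - 2 * (97 / 100) * m₁ + m₂) + x * (2 * |m₁| + 8 * |m₂| + 21 * C) ∧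
    m₀ - x * (2 * |m₁| + 2 * |m₂| + C) ≤ f1 := by
  obtain ⟨e1, he1⟩ : ∃ e, e = f1 - (m₀ - 2 * x * m₁ + 2 * x ^ 2 * m₂) := ⟨_, rfl⟩
  obtain ⟨e2, he2⟩ : ∃ e, e = f2 - (m₀ - 2 * (2 * x) * m₁ + 2 * (2 * x) ^ 2 * m₂) := ⟨_, rfl⟩
  obtain ⟨e3, he3⟩ : ∃ e, e = f3 - (m₀ - 2 * (3 * x) * m₁ + 2 * (3 * x) ^ 2 * m₂) := ⟨_, rfl⟩
  rw [← he1] at h1
  rw [← he2] at h2
  rw [← he3] at h3
  have g1 : f1 = m₀ - 2 * x * m₁ + 2 * x ^ 2 * m₂ + e1 := by rw [he1]; ring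
  have g2 : f2 = m₀ - 2 * (2 * x) * m₁ + 2 * (2 * x) ^ 2 * m₂ + e2 := by rw [he2]; ring
  have g3 : f3 = m₀ - 2 * (3 * x) * m₁ + 2 * (3 * x) ^ 2 * m₂ + e3 := by rw [he3]; ring
  have hx2 : x ^ 2 ≤ x := by nlinarith
  have hx3 : x ^ 3 ≤ x := by nlinarith [sq_nonneg x]
  have hCx3 : C * x ^ 3 ≤ C * x := mul_le_mul_of_nonneg_left hx3 hC
  have p1 := abs_le.1 h1
  have p2 := abs_le.1 h2
  have p3 := abs_le.1 h3
  have a1 := neg_abs_le m₁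
  have a1' := le_abs_self m₁
  have a2 := neg_abs_le m₂
  have a2' := le_abs_self m₂
  have b1 : 0 ≤ |m₁| := abs_nonneg _
  have b2 : 0 ≤ |m₂| := abs_nonneg _
  have xm1 : -(x * |m₁|) ≤ x * m₁ ∧ x * m₁ ≤ x * |m₁| := by
    constructor
    · have := mul_le_mul_of_nonneg_left a1 hx.le
      linarith
    · exact mul_le_mul_of_nonneg_left a1' hx.le
  have xm2 : -(x * |m₂|) ≤ x * m₂ ∧ x * m₂ ≤ x * |m₂| := by
    constructor
    · have := mul_le_mul_of_nonneg_left a2 hx.le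
      linarith
    · exact mul_le_mul_of_nonneg_left a2' hx.le
  have x2m2 : -(x * |m₂|) ≤ x ^ 2 * m₂ ∧ x ^ 2 * m₂ ≤ x * |m₂| := by
    have h5 : |x ^ 2 * m₂| ≤ x * |m₂| := by
      rw [abs_mul, abs_of_nonneg (sq_nonneg x)]
      exact mul_le_mul_of_nonneg_right hx2 b2
    exact abs_le.1 h5
  constructor
  · have q1 : (f1 - f2) / (2 * x) = m₁ - 3 * (x * m₂) + (e1 - e2) / (2 * x) := by
      rw [g1, g2]; field_simp; ring
    have q2 : (f1 - 2 * f2 + f3) / (4 * x ^ 2) = m₂ + (e1 - 2 * e2 + e3) / (4 * x ^ 2) := by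
      rw [g1, g2, g3]; field_simp; ring
    have r1 : -((e1 - e2) / (2 * x)) ≤ 9 / 2 * (C * x) := by
      rw [← neg_div, div_le_iff₀ (by positivity)]
      have : 9 / 2 * (C * x) * (2 * x) = 9 * (C * x ^ 2) := by ring
      rw [this]
      have h5 : (2 * x) ^ 3 = 8 * x ^ 3 := by ring
      rw [h5] at p2
      have h6 : C * x ^ 3 ≤ C * x ^ 2 := mul_le_mul_of_nonneg_left (by nlinarith [sq_nonneg x]) hC
      linarith [p1.1, p2.2]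
    have r2 : (e1 - 2 * e2 + e3) / (4 * x ^ 2) ≤ 11 * (C * x) := by
      rw [div_le_iff₀ (by positivity)]
      have : 11 * (C * x) * (4 * x ^ 2) = 44 * (C * x ^ 3) := by ring
      rw [this]
      have h5 : (2 * x) ^ 3 = 8 * x ^ 3 := by ring
      have h6 : (3 * x) ^ 3 = 27 * x ^ 3 := by ring
      rw [h5] at p2
      rw [h6] at p3
      linarith [p1.2, p2.1, p3.2]
    rw [q1, q2, g1]
    have hCx : 0 ≤ C * x := by positivity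
    linarith [p1.2, xm1.1, xm1.2, xm2.1, xm2.2, x2m2.1, x2m2.2]
  · rw [g1]
    linarith [p1.1, xm1.1, xm1.2, x2m2.1]

lemma num82 (hNUM : NUM2) : ∃ c0 K x1 : ℝ, 0 < c0 ∧ 2 ≤ K ∧ 0 < x1 ∧ x1 ≤ 1 / 6 ∧ ∀ x : ℝ, 0 < x → x ≤ x1 →
    |Phi2 x| ≤ K ∧ |Phi2 (2 * x)| ≤ K ∧ |Phi2 (3 * x)| ≤ K ∧
    4 * (13 / 5) ^ 2 * ((97 / 100) ^ 2 * Phi2 x - 2 * (97 / 100) * ((Phi2 x - Phi2 (2 * x)) / (2 * x)) +
      (Phi2 x - 2 * Phi2 (2 * x) + Phi2 (3 * x)) / (4 * x ^ 2)) ≤ Phi2 x - c0 := by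
  obtain ⟨m₀, m₁, m₂, C, hm0, hlt, hex⟩ := hNUM
  have hC : 0 ≤ C := by
    have h := (abs_nonneg _).trans (hex (1 / 2) (by norm_num) (by norm_num))
    norm_num at h
    exact h
  obtain ⟨G, hG⟩ : ∃ G : ℝ, G = (97 / 100) ^ 2 * m₀ - 2 * (97 / 100) * m₁ + m₂ := ⟨_, rfl⟩
  obtain ⟨c0, hc0⟩ : ∃ c0 : ℝ, c0 = (m₀ - 676 / 25 * G) / 2 := ⟨_, rfl⟩
  rw [← hG] at hlt
  have hc00 : 0 < c0 := by rw [hc0]; linarith
  obtain ⟨E, hE⟩ : ∃ E : ℝ, E = 676 / 25 * (2 * |m₁| + 8 * |m₂| + 21 * C) + (2 * |m₁| + 2 * |m₂| + C) + 1 := ⟨_, rfl⟩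
  have hE0 : 0 < E := by rw [hE]; positivity
  refine ⟨c0, 2 + |m₀| + 2 * |m₁| + 2 * |m₂| + C, min (1 / 6) (c0 / E), hc00, ?_, by positivity, min_le_left _ _, ?_⟩
  · have := abs_nonneg m₀
    have := abs_nonneg m₁
    have := abs_nonneg m₂
    linarith
  intro x hx hxx
  have hx6 : x ≤ 1 / 6 := hxx.trans (min_le_left _ _)
  have hxE : x * E ≤ c0 := by
    have : x ≤ c0 / E := hxx.trans (min_le_right _ _)
    rwa [le_div_iff₀ hE0] at this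
  have hbd : ∀ y : ℝ, 0 < y → y ≤ 1 / 2 → |Phi2 y| ≤ 2 + |m₀| + 2 * |m₁| + 2 * |m₂| + C := by
    intro y hy hy1
    have h := hex y hy hy1
    have h1 : |m₀ - 2 * y * m₁ + 2 * y ^ 2 * m₂| ≤ |m₀| + 2 * |m₁| + 2 * |m₂| := by
      have a1 : |2 * y * m₁| ≤ 2 * |m₁| := by
        rw [abs_mul, abs_of_pos (by positivity : 0 < 2 * y)]
        exact mul_le_mul_of_nonneg_right (by linarith) (abs_nonneg _)
      have a2 : |2 * y ^ 2 * m₂| ≤ 2 * |m₂| := by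
        rw [abs_mul, abs_of_pos (by positivity : 0 < 2 * y ^ 2)]
        exact mul_le_mul_of_nonneg_right (by nlinarith) (abs_nonneg _)
      calc _ ≤ |m₀ - 2 * y * m₁| + |2 * y ^ 2 * m₂| := abs_add_le _ _
        _ ≤ (|m₀| + |2 * y * m₁|) + |2 * y ^ 2 * m₂| := by
            have := abs_sub m₀ (2 * y * m₁)
            linarith
        _ ≤ _ := by linarith
    have h2 : C * y ^ 3 ≤ C := by
      have : y ^ 3 ≤ 1 := pow_le_one₀ hy.le (by linarith)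
      nlinarith
    have h3 : Phi2 y = (Phi2 y - (m₀ - 2 * y * m₁ + 2 * y ^ 2 * m₂)) + (m₀ - 2 * y * m₁ + 2 * y ^ 2 * m₂) := by ring
    rw [h3]
    refine (abs_add_le _ _).trans ?_
    linarith
  refine ⟨hbd x hx (by linarith), hbd (2 * x) (by linarith) (by linarith), hbd (3 * x) (by linarith) (by linarith), ?_⟩
  obtain ⟨n1, n2⟩ := numa82 hC hx (by linarith) (hex x hx (by linarith)) (hex (2 * x) (by linarith) (by linarith))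
    (hex (3 * x) (by linarith) (by linarith))
  rw [← hG] at n1
  have h5 : (4:ℝ) * (13 / 5) ^ 2 = 676 / 25 := by norm_num
  rw [h5]
  have h6 : 676 / 25 * G = m₀ - 2 * c0 := by rw [hc0]; ring
  have h7 : x * E = 676 / 25 * (x * (2 * |m₁| + 8 * |m₂| + 21 * C)) + x * (2 * |m₁| + 2 * |m₂| + C) + x := by
    rw [hE]; ring
  rw [h7] at hxE
  have h8 := mul_le_mul_of_nonneg_left n1 (by norm_num : (0:ℝ) ≤ 676 / 25)
  linarith

end Pool.Agent.Helper82.HV
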