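import Pool.Agent.Helper25.HV.Base
import Pool.Agent.Helper82.HV.Lim
import Pool.Agent.Helper82.HV.Nu

/-!
# HV-FA2: the block FA2, assembled
-/

open MeasureTheory Set Filter Topology
open Pool.Agent.Helper57.Zeta Pool.Agent.Helper57.LH Pool.Agent.Helper57.ED
open Pool.Agent.Helper69.HG Pool.Agent.Helper57.HL Pool.Agent.Helper25.HV

namespace Pool.Agent.Helper82.HV

lemma Zl_eq82 : Zl = Z0 := by
  ext t
  unfold Zl Z0 ze
  show riemannZeta (1 / 2 + Complex.I * t) = 0 ↔ riemannZeta (1 / 2 + t * Complex.I) = 0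
  rw [mul_comm Complex.I (t : ℂ)]

lemma DP_Mo82 (X : ℕ) (c : ℕ → ℝ) (t : ℝ) : DP X (fun n => (c n : ℂ)) t = Mo X c (1 / 2 + t * Complex.I) := by
  unfold DP Mo
  rw [mul_comm Complex.I (t : ℂ)]

lemma DD_eq82 (T : ℝ) : DD2 T = 2 * Real.pi * (13 / 5) / Real.log T := by
  unfold DD2
  ring

lemma fg_sq82 {T ε : ℝ} {a : ℕ → ℝ} (hN : 0 < Real.log T * Vp T ε) (t : ℝ) :
    ‖fg2 T a t‖ ^ 2 = (Real.log T * Vp T ε) *
      ‖riemannZeta (1 / 2 + t * Complex.I) * Mo (XX2 T) (cn82 T ε a) (1 / 2 + t * Complex.I)‖ ^ 2 := by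
  unfold fg2 ze
  have e : cn82 T ε a = fun n => (1 / Real.sqrt (Real.log T * Vp T ε)) * conv a (rr2 T) n := by
    funext n; rfl
  rw [DP_Mo82, mul_comm Complex.I (t : ℂ), e, Mo_smul57, norm_mul, norm_mul, norm_mul, Complex.norm_real,
    Real.norm_of_nonneg (by positivity)]
  rw [mul_pow, mul_pow, mul_pow, div_pow, Real.sq_sqrt hN.le, one_pow]
  generalize Real.log T * Vp T ε = N at *
  generalize ‖riemannZeta (1 / 2 + t * Complex.I)‖ = A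
  generalize ‖Mo (XX2 T) (conv a (rr2 T)) (1 / 2 + t * Complex.I)‖ = B
  field_simp

lemma pw82 {c C δ : ℝ} (hδ : 0 < δ) : ∀ᶠ T : ℝ in atTop, C * T ^ (4026 / 4032 : ℝ) * c ≤ δ * T := by
  have e1 : Tendsto (fun T : ℝ => C * c * T ^ (-(6 / 4032) : ℝ)) atTop (𝓝 0) := by
    have := (tendsto_rpow_neg_atTop (by norm_num : (0:ℝ) < 6 / 4032)).const_mul (C * c)
    rwa [mul_zero] at this
  filter_upwards [e1.eventually_le_const hδ, eventually_gt_atTop 0] with T hT hT0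
  have h1 : T ^ (4026 / 4032 : ℝ) = T ^ (-(6 / 4032) : ℝ) * T := by
    conv_rhs => rw [← Real.rpow_one T]
    rw [Real.rpow_one T]
    nth_rewrite 3 [← Real.rpow_one T]
    rw [← Real.rpow_add hT0]
    norm_num
  rw [h1]
  calc C * (T ^ (-(6 / 4032) : ℝ) * T) * c = (C * c * T ^ (-(6 / 4032) : ℝ)) * T := by ring
    _ ≤ δ * T := mul_le_mul_of_nonneg_right hT hT0.le

/-- **FA2**, from CS, SV, RS2 and NUM2. -/
theorem fa_of82 (hCS : CS) (hSV : SV) (hRS : RS2) (hNUM : NUM2) (hsp : ∀ T : ℝ, 1 < T → Rsp T)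
    (hbd : ∃ C : ℝ, 1 ≤ C ∧ ∀ T : ℝ, 1 < T → ∀ n : ℕ, |rr2 T n| ≤ C) : FA2 := by
  intro η hη hη1
  obtain ⟨c0, K, x1, hc0, hK, hx1, hx16, hnum⟩ := num82 hNUM
  obtain ⟨κ, hκ0, hκ1, x0, hx0, hloc⟩ := fa_loc (K := K) (ν := 97 / 100) (lam := 13 / 5) (c0 := c0) (η := η) hK
    (by norm_num) hc0 hη hη1
  obtain ⟨x, hxdef⟩ : ∃ x : ℝ, x = min x0 x1 := ⟨_, rfl⟩
  have hx : 0 < x := by rw [hxdef]; exact lt_min hx0 hx1
  have hxa : x ≤ x0 := by rw [hxdef]; exact min_le_left _ _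
  have hxb : x ≤ x1 := by rw [hxdef]; exact min_le_right _ _
  obtain ⟨k1, k2, k3, k4⟩ := hnum x hx hxb
  obtain ⟨δ, hδ, Ta, hTa⟩ := hloc x hx hxa
  obtain ⟨b1, hb1⟩ := fs_lim82 hCS hSV hRS hsp hbd hx hκ0 hδ
  obtain ⟨b2, hb2⟩ := fs_lim82 hCS hSV hRS hsp hbd (by linarith : 0 < 2 * x) hκ0 hδ
  obtain ⟨b3, hb3⟩ := fs_lim82 hCS hSV hRS hsp hbd (by linarith : 0 < 3 * x) hκ0 hδ
  obtain ⟨b4, hb4⟩ := fs_lim82 hCS hSV hRS hsp hbd hx one_pos hδ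
  obtain ⟨b5, hb5⟩ := fs_lim82 hCS hSV hRS hsp hbd (by linarith : 0 < 2 * x) one_pos hδ
  obtain ⟨b6, hb6⟩ := fs_lim82 hCS hSV hRS hsp hbd (by linarith : 0 < 3 * x) one_pos hδ
  obtain ⟨-, c, C, hc, hC, hcs⟩ := hCS
  obtain ⟨Cr, hCr1, hCr⟩ := hbd
  have hpi := Real.pi_pos
  refine ⟨c * (c0 / 4 * (Real.pi * κ)), by positivity, b1 + b2 + b3 + b4 + b5 + b6, fun b hb => ?_⟩
  obtain ⟨e1, he1, hb1'⟩ := hb1 b (by omega)
  obtain ⟨e2, he2, hb2'⟩ := hb2 b (by omega)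
  obtain ⟨e3, he3, hb3'⟩ := hb3 b (by omega)
  obtain ⟨e4, he4, hb4'⟩ := hb4 b (by omega)
  obtain ⟨e5, he5, hb5'⟩ := hb5 b (by omega)
  obtain ⟨e6, he6, hb6'⟩ := hb6 b (by omega)
  refine ⟨min e1 (min e2 (min e3 (min e4 (min e5 (min e6 (min 1 (1 / 4032 / (4 * b + 4)))))))), by positivity, fun ε hε hεε => ?_⟩
  have g1 : ε ≤ e1 := hεε.trans (min_le_left _ _)
  have h2 := hεε.trans (min_le_right _ _)
  have g2 : ε ≤ e2 := h2.trans (min_le_left _ _)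
  have h3 := h2.trans (min_le_right _ _)
  have g3 : ε ≤ e3 := h3.trans (min_le_left _ _)
  have h4 := h3.trans (min_le_right _ _)
  have g4 : ε ≤ e4 := h4.trans (min_le_left _ _)
  have h5 := h4.trans (min_le_right _ _)
  have g5 : ε ≤ e5 := h5.trans (min_le_left _ _)
  have h6 := h5.trans (min_le_right _ _)
  have g6 : ε ≤ e6 := h6.trans (min_le_left _ _)
  have h7 := h6.trans (min_le_right _ _)
  have g7 : ε ≤ 1 := h7.trans (min_le_left _ _)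
  have hε5 : ε * (4 * b + 4) ≤ 1 / 4032 := by
    have := h7.trans (min_le_right _ _)
    rwa [le_div_iff₀ (by positivity)] at this
  obtain ⟨T1, hT1⟩ := hb1' ε hε g1
  obtain ⟨T2, hT2⟩ := hb2' ε hε g2
  obtain ⟨T3, hT3⟩ := hb3' ε hε g3
  obtain ⟨T4, hT4⟩ := hb4' ε hε g4
  obtain ⟨T5, hT5⟩ := hb5' ε hε g5
  obtain ⟨T6, hT6⟩ := hb6' ε hε g6
  obtain ⟨T7, hT7⟩ := hcs ε hε g7
  obtain ⟨T8, hT8⟩ := eventually_atTop.1 ((pw82 (c := 1 / (c / ε)) (C := Cr ^ 2) hδ).and (eventually_gt_atTop 1))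
  have hall : ∀ᶠ T : ℝ in atTop, T1 ≤ T ∧ T2 ≤ T ∧ T3 ≤ T ∧ T4 ≤ T ∧ T5 ≤ T ∧ T6 ≤ T ∧ T7 ≤ T ∧ T8 ≤ T ∧ Ta ≤ T := by
    filter_upwards [eventually_ge_atTop T1, eventually_ge_atTop T2, eventually_ge_atTop T3, eventually_ge_atTop T4,
      eventually_ge_atTop T5, eventually_ge_atTop T6, eventually_ge_atTop T7, eventually_ge_atTop T8,
      eventually_ge_atTop Ta] with T a1 a2 a3 a4 a5 a6 a7 a8 a9
    exact ⟨a1, a2, a3, a4, a5, a6, a7, a8, a9⟩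
  obtain ⟨T₀, hT₀⟩ := eventually_atTop.1 hall
  refine ⟨T₀, fun T hT a ha => ?_⟩
  obtain ⟨q1, q2, q3, q4, q5, q6, q7, q8, q9⟩ := hT₀ T hT
  obtain ⟨q10, q11⟩ := hT8 T q8
  have hT0 : 0 < T := by linarith
  have hcN := (hT7 T q7).1
  have hcε : 0 < c / ε := by positivity
  have hN : 0 < Real.log T * Vp T ε := lt_of_lt_of_le hcε hcN
  have hτ : |(1 + η / 2) * T| ≤ 2 * T := by
    rw [abs_of_pos (by positivity)]
    nlinarith
  have hS : S1 (XX2 T) (cn82 T ε a) ^ 2 ≤ δ * T := by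
    have e : cn82 T ε a = fun n => (1 / Real.sqrt (Real.log T * Vp T ε)) * conv a (rr2 T) n := by
      funext n; rfl
    rw [e, S1_smul57, div_pow, Real.sq_sqrt hN.le, one_pow]
    have hS0 := S1_nonneg57 (XX2 T) (conv a (rr2 T))
    have hS1 := S1_conv82 (hCr T q11) (hsp T q11) ha q11 hε hε5
    have h3 : S1 (XX2 T) (conv a (rr2 T)) ^ 2 ≤ Cr ^ 2 * T ^ (4026 / 4032 : ℝ) := by
      refine (pow_le_pow_left₀ hS0 hS1 2).trans (le_of_eq ?_)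
      rw [mul_pow, ← Real.rpow_natCast (T ^ (2013 / 4032 : ℝ)), ← Real.rpow_mul hT0.le]
      norm_num
    have h4 : 1 / (Real.log T * Vp T ε) ≤ 1 / (c / ε) := one_div_le_one_div_of_le hcε hcN
    calc 1 / (Real.log T * Vp T ε) * S1 (XX2 T) (conv a (rr2 T)) ^ 2 ≤ 1 / (c / ε) * (Cr ^ 2 * T ^ (4026 / 4032 : ℝ)) :=
          mul_le_mul h4 h3 (sq_nonneg _) (by positivity)
      _ = Cr ^ 2 * T ^ (4026 / 4032 : ℝ) * (1 / (c / ε)) := by ring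
      _ ≤ δ * T := q10
  have hres := hTa T q9 (XX2 T) (cn82 T ε a) (Phi2 x) (Phi2 (2 * x)) (Phi2 (3 * x)) hS k1 k2 k3 (by
    rintro l (rfl | rfl)
    · exact ⟨hT1 T q1 a ha _ hτ, hT2 T q2 a ha _ hτ, hT3 T q3 a ha _ hτ⟩
    · have e4 := hT4 l q4 a ha ((1 + η / 2) * l) hτ
      have e5 := hT5 l q5 a ha ((1 + η / 2) * l) hτ
      have e6 := hT6 l q6 a ha ((1 + η / 2) * l) hτ
      rw [one_mul] at e4 e5 e6
      exact ⟨e4, e5, e6⟩) k4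
  rw [Zl_eq82, DD_eq82]
  have hfin : ∫ t in Pool.Agent.Helper49.HG.LongSet Z0 (2 * Real.pi * (13 / 5) / Real.log T) ∩ Icc T ((1 + η) * T), ‖fg2 T a t‖ ^ 2 =
      (Real.log T * Vp T ε) * ∫ t in Pool.Agent.Helper49.HG.LongSet Z0 (2 * Real.pi * (13 / 5) / Real.log T) ∩ Icc T ((1 + η) * T),
        ‖riemannZeta (1 / 2 + t * Complex.I) * Mo (XX2 T) (cn82 T ε a) (1 / 2 + t * Complex.I)‖ ^ 2 := by
    rw [← integral_const_mul]
    exact integral_congr_ae (Eventually.of_forall fun t => fg_sq82 hN t)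
  rw [hfin]
  have hpos : 0 ≤ c0 / 4 * (Real.pi * κ * T) := by positivity
  calc c * (c0 / 4 * (Real.pi * κ)) * T / ε = c / ε * (c0 / 4 * (Real.pi * κ * T)) := by ring
    _ ≤ (Real.log T * Vp T ε) * (c0 / 4 * (Real.pi * κ * T)) := mul_le_mul_of_nonneg_right hcN hpos
    _ ≤ _ := mul_le_mul_of_nonneg_left hres hN.le

lemma rsp82 {T : ℝ} (hT : 1 < T) : Rsp T := by
  intro n hn
  obtain ⟨h0, -, h1, h2⟩ := rr2_supp hT hn
  exact ⟨h0, h1, fun p hp hpn => (h2 p (Nat.mem_primeFactors.2 ⟨hp, hpn, h0⟩)).1⟩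

/-- **FA2** -/
theorem fa2 (hCS : CS) (hSV : SV) (hRS : RS2) (hNUM : NUM2) : FA2 :=
  fa_of82 hCS hSV hRS hNUM (fun _ hT => rsp82 hT) rr2_bd

end Pool.Agent.Helper82.HV
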